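import Mathlib

/-!
Homogenization of polynomials and composition with rational functions (helper file for
`MP_defd1c_ag.MixedOrbits`).
-/

set_option autoImplicit false

namespace Pool.Agent.R424.MX

open Polynomial

/-- the form of degree `e` with the dehomogenization `p`, evaluated at `(P, Q)` -/
noncomputable def hm {F : Type*} [Field F] (P Q : F[X]) (e : ℕ) (p : F[X]) : F[X] :=
  MvPolynomial.aeval ![P, Q] (p.homogenize e)

section

variable {F : Type*} [Field F] (P Q : F[X])

theorem hm_zero (e : ℕ) : hm P Q e 0 = 0 := by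
  simp [hm]

theorem hm_mul {a b : ℕ} (p q : F[X]) (hp : p.natDegree ≤ a) (hq : q.natDegree ≤ b) :
    hm P Q (a + b) (p * q) = hm P Q a p * hm P Q b q := by
  unfold hm
  rw [homogenize_mul p q hp hq, map_mul]

theorem hm_linear (α : F) : hm P Q 1 (X - C α) = P - C α * Q := by
  unfold hm
  have h : (X - C α : F[X]) = X + C (-α) := by rw [C_neg, sub_eq_add_neg]
  rw [h, homogenize_add, homogenize_X one_ne_zero, homogenize_C]
  simp only [map_add, map_mul, map_pow, MvPolynomial.aeval_X, MvPolynomial.aeval_C]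
  simp [sub_eq_add_neg]

theorem hm_pow (α : F) (r : ℕ) : hm P Q r ((X - C α) ^ r) = (P - C α * Q) ^ r := by
  induction r with
  | zero =>
    simp [hm]
  | succ r ih =>
    rw [pow_succ, hm_mul, ih, hm_linear, pow_succ]
    · rw [natDegree_pow, natDegree_X_sub_C, mul_one]
    · rw [natDegree_X_sub_C]

theorem hm_map {E : Type*} [Field E] (f : F →+* E) (e : ℕ) (p : F[X]) :
    (hm P Q e p).map f = hm (P.map f) (Q.map f) e (p.map f) := by
  unfold hm
  rw [homogenize_map]
  rw [MvPolynomial.aeval_def, MvPolynomial.aeval_def, MvPolynomial.eval₂_map,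
    ← Polynomial.coe_mapRingHom, MvPolynomial.hom_eval₂]
  congr 1
  · ext a
    simp
  · funext i
    fin_cases i <;> simp

/-- the values of the homogenization -/
theorem eval_hm {S : Type*} [Field S] (g : F →+* S) (s : S) {e : ℕ} {p : F[X]}
    (hp : p.natDegree ≤ e) (hQ : Q.eval₂ g s ≠ 0) :
    (hm P Q e p).eval₂ g s = Q.eval₂ g s ^ e * p.eval₂ g (P.eval₂ g s / Q.eval₂ g s) := by
  refine Polynomial.induction_with_natDegree_le
    (fun p => (hm P Q e p).eval₂ g s = Q.eval₂ g s ^ e * p.eval₂ g (P.eval₂ g s / Q.eval₂ g s))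
    e ?_ ?_ ?_ p hp
  · simp [hm_zero]
  · intro n r _ hn
    have h1 : hm P Q e (C r * X ^ n) = C r * (P ^ n * Q ^ (e - n)) := by
      unfold hm
      rw [homogenize_C_mul, homogenize_X_pow hn]
      simp only [map_mul, map_pow, MvPolynomial.aeval_X, MvPolynomial.aeval_C]
      simp
    rw [h1]
    simp only [eval₂_mul, eval₂_C, eval₂_pow, eval₂_X]
    have h2 : Q.eval₂ g s ^ e = Q.eval₂ g s ^ n * Q.eval₂ g s ^ (e - n) := by
      rw [← pow_add]
      congr 1
      omega
    rw [h2, div_pow]
    field_simp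
  · intro f f' _ _ h1 h2
    have h3 : hm P Q e (f + f') = hm P Q e f + hm P Q e f' := by
      unfold hm
      rw [homogenize_add, map_add]
    show (hm P Q e (f + f')).eval₂ g s = _
    rw [h3, eval₂_add, h1, h2, eval₂_add]
    ring

end

/-- the order of the zero of a composition -/
theorem rootMultiplicity_hm {P Q c : ℂ[X]} {e : ℕ} (hc : c ≠ 0) (he : c.natDegree ≤ e) {β : ℂ}
    (hQ : Q.eval β ≠ 0) (hPQ : P - C (P.eval β / Q.eval β) * Q ≠ 0) :
    (hm P Q e c).rootMultiplicity β = c.rootMultiplicity (P.eval β / Q.eval β) *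
      (P - C (P.eval β / Q.eval β) * Q).rootMultiplicity β := by
  set α := P.eval β / Q.eval β with hα
  obtain ⟨q, hq1, hq2⟩ := exists_eq_pow_rootMultiplicity_mul_and_not_dvd c hc α
  set r := c.rootMultiplicity α with hr
  have hq0 : q ≠ 0 := by
    rintro rfl
    rw [mul_zero] at hq1
    exact hc hq1
  have hqα : q.eval α ≠ 0 := by
    intro h
    exact hq2 (dvd_iff_isRoot.2 h)
  have hdeg : c.natDegree = r + q.natDegree := by
    conv_lhs => rw [hq1]
    rw [natDegree_mul (pow_ne_zero _ (X_sub_C_ne_zero α)) hq0, natDegree_pow,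
      natDegree_X_sub_C, mul_one]
  have he' : e = r + (e - r) := by omega
  have h1 : hm P Q e c = (P - C α * Q) ^ r * hm P Q (e - r) q := by
    conv_lhs => rw [hq1, he']
    rw [hm_mul, hm_pow]
    · rw [natDegree_pow, natDegree_X_sub_C, mul_one]
    · omega
  have h2 : (hm P Q (e - r) q).eval β ≠ 0 := by
    have h3 := eval_hm P Q (RingHom.id ℂ) β (p := q) (e := e - r) (by omega) hQ
    have h4 : (hm P Q (e - r) q).eval β = Q.eval β ^ (e - r) * q.eval α := h3
    rw [h4]
    exact mul_ne_zero (pow_ne_zero _ hQ) hqα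
  have h3 : hm P Q (e - r) q ≠ 0 := by
    intro h
    rw [h, eval_zero] at h2
    exact h2 rfl
  have h4 : ((P - C α * Q) ^ r).rootMultiplicity β = r * (P - C α * Q).rootMultiplicity β := by
    rw [← count_roots, roots_pow, Multiset.count_nsmul, count_roots]
  rw [h1, rootMultiplicity_mul (mul_ne_zero (pow_ne_zero _ hPQ) h3), h4,
    rootMultiplicity_eq_zero h2, add_zero]

end Pool.Agent.R424.MX
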