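import Pool.Agent.R424.MX.Fam
import Pool.Agent.R424.SO.Root

/-!
Pull-backs of one-parameter families of subsets of `Y(1)^n × G_m^k` by a polynomial (helper file for
`MP_defd1c_ag.MixedOrbits`).
-/

set_option autoImplicit false

namespace Pool.Agent.R424.MX

open MvPolynomial
open Pool.Agent.Y152.RP.FamM Pool.Agent.R424.SO

variable {K : Subfield ℂ}

/-- substitution of `ψ` for the parameter -/
noncomputable def sub (ψ : Polynomial K) : Polynomial K →+* Polynomial K :=
  Polynomial.compRingHom ψ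

theorem evalAt_comp (ψ : Polynomial K) (s : ℂ) :
    (evalAt K s).comp (sub ψ) = evalAt K (Polynomial.aeval s ψ) := by
  refine Polynomial.ringHom_ext (fun a => ?_) ?_
  · simp [evalAt, sub]
  · simp [evalAt, sub]

theorem evalAt_sub (ψ : Polynomial K) (s : ℂ) (c : Polynomial K) :
    evalAt K s (sub ψ c) = evalAt K (Polynomial.aeval s ψ) c := by
  rw [← evalAt_comp]
  rfl

theorem eval₂_sub (ψ : Polynomial K) (s : ℂ) {N : ℕ}
    (P : MvPolynomial (Fin (N + 1)) (Polynomial K)) (y : Fin (N + 1) → ℂ) :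
    eval₂ (evalAt K s) y (MvPolynomial.map (sub ψ) P) =
      eval₂ (evalAt K (Polynomial.aeval s ψ)) y P := by
  rw [eval₂_map, evalAt_comp]

theorem onB_sub (ψ : Polynomial K) (s : ℂ) {N : ℕ} {κ : Type}
    (G : κ → MvPolynomial (Fin (N + 1)) (Polynomial K)) (y : Fin (N + 1) → ℂ) :
    OnB s (fun k => MvPolynomial.map (sub ψ) (G k)) y ↔ OnB (Polynomial.aeval s ψ) G y := by
  unfold OnB
  simp only [eval₂_sub]

theorem pos_sub (ψ : Polynomial K) (s : ℂ) {N n k₀ m : ℕ} {κ : Type}
    (G : κ → MvPolynomial (Fin (N + 1)) (Polynomial K))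
    (A B : Fin n ⊕ Fin k₀ → MvPolynomial (Fin (N + 1)) (Polynomial K))
    (h : InGeneralPosition (Polynomial.aeval s ψ) m G A B) :
    InGeneralPosition s m (fun k => MvPolynomial.map (sub ψ) (G k))
      (fun i => MvPolynomial.map (sub ψ) (A i)) (fun i => MvPolynomial.map (sub ψ) (B i)) := by
  intro I hI y hy
  rw [onB_sub] at hy
  simp only [eval₂_sub]
  exact h I hI y hy

theorem scaledImage_sub (ψ : Polynomial K) (s : ℂ) {N n k₀ : ℕ} {κ : Type}
    (G : κ → MvPolynomial (Fin (N + 1)) (Polynomial K))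
    (A B : Fin n ⊕ Fin k₀ → MvPolynomial (Fin (N + 1)) (Polynomial K))
    (R : Fin n → Polynomial (Polynomial K)) (c : Fin n ⊕ Fin k₀ → Polynomial K) :
    scaledImage s (fun k => MvPolynomial.map (sub ψ) (G k))
      (fun i => MvPolynomial.map (sub ψ) (A i)) (fun i => MvPolynomial.map (sub ψ) (B i)) R
      (fun i => sub ψ (c i)) = scaledImage (Polynomial.aeval s ψ) G A B R c := by
  ext x
  unfold scaledImage
  simp only [onB_sub, eval₂_sub, evalAt_sub]

/-- the preimage of a finite set -/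
noncomputable def pre (ψ : Polynomial K) (D : Finset ℂ) : Finset ℂ := by
  classical
  exact D.biUnion fun α => (ψ.map (algebraMap K ℂ) - Polynomial.C α).roots.toFinset

theorem mem_pre (ψ : Polynomial K) (hψ : ψ.natDegree ≠ 0) (D : Finset ℂ) (β : ℂ) :
    β ∈ pre ψ D ↔ Polynomial.aeval β ψ ∈ D := by
  classical
  have h0 : ∀ α : ℂ, ψ.map (algebraMap K ℂ) - Polynomial.C α ≠ 0 := by
    intro α h0
    have h2 : (ψ.map (algebraMap K ℂ) - Polynomial.C α).natDegree = ψ.natDegree := by
      rw [Polynomial.natDegree_sub_C, Polynomial.natDegree_map]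
    rw [h0, Polynomial.natDegree_zero] at h2
    exact hψ h2.symm
  unfold pre
  simp only [Finset.mem_biUnion, Multiset.mem_toFinset, Polynomial.mem_roots (h0 _),
    Polynomial.IsRoot, Polynomial.eval_sub, Polynomial.eval_C, Polynomial.eval_map_algebraMap,
    sub_eq_zero]
  constructor
  · rintro ⟨α, hα, h⟩
    rw [h]
    exact hα
  · intro h
    exact ⟨_, h, rfl⟩

theorem order_sub (ψ : Polynomial K) (hψ : ψ.natDegree ≠ 0) (c : Polynomial K) (hc : c ≠ 0)
    (β : ℂ) : order (sub ψ c) β = order c (Polynomial.aeval β ψ) *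
      (ψ.map (algebraMap K ℂ) - Polynomial.C (Polynomial.aeval β ψ)).rootMultiplicity β := by
  unfold order sub
  rw [Polynomial.coe_compRingHom_apply, Polynomial.map_comp]
  have h1 : (ψ.map (algebraMap K ℂ)).natDegree ≠ 0 := by
    rw [Polynomial.natDegree_map]
    exact hψ
  have h2 : c.map (algebraMap K ℂ) ≠ 0 :=
    (Polynomial.map_ne_zero_iff (algebraMap K ℂ).injective).2 hc
  rw [rootMultiplicity_comp h2 h1, Polynomial.eval_map_algebraMap]

theorem ord_pos (ψ : Polynomial K) (hψ : ψ.natDegree ≠ 0) (β : ℂ) :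
    0 < (ψ.map (algebraMap K ℂ) - Polynomial.C (Polynomial.aeval β ψ)).rootMultiplicity β := by
  have h1 : (ψ.map (algebraMap K ℂ)).natDegree ≠ 0 := by
    rw [Polynomial.natDegree_map]
    exact hψ
  have h2 := rootMultiplicity_pos_of h1 β
  rwa [Polynomial.eval_map_algebraMap] at h2

theorem isSquare_of_mul {a b r : ℕ} (hr : 0 < r) (h : IsSquare (a * (b * (r * r)))) :
    IsSquare (a * b) := by
  obtain ⟨x, hx⟩ := h
  have h1 : r * r ∣ x * x := ⟨a * b, by rw [← hx]; ring⟩
  have h2 : r ∣ x := by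
    rw [← sq, ← sq] at h1
    exact (Nat.pow_dvd_pow_iff (by norm_num)).1 h1
  obtain ⟨y, rfl⟩ := h2
  refine ⟨y, ?_⟩
  have h3 : (r * r) * (a * b) = (r * r) * (y * y) := by
    calc (r * r) * (a * b) = a * (b * (r * r)) := by ring
      _ = r * y * (r * y) := hx
      _ = (r * r) * (y * y) := by ring
  exact Nat.eq_of_mul_eq_mul_left (Nat.mul_pos hr hr) h3

theorem ind_sub (ψ : Polynomial K) (hψ : ψ.natDegree ≠ 0) {n k₀ M : ℕ} (T : ℕ)
    (c : Fin n ⊕ Fin k₀ → Polynomial K) (D : Fin M → Finset ℂ) (h : IndependentOrders T c D) :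
    IndependentOrders T (fun i => sub ψ (c i)) (fun l => pre ψ (D l)) := by
  have hc : ∀ l, ∀ α ∈ D l, ∀ i, c i ≠ 0 := by
    intro l α hα i h0
    have h1 := h.1 l α hα i
    unfold order at h1
    rw [h0, Polynomial.map_zero, Polynomial.rootMultiplicity_zero] at h1
    exact lt_irrefl _ h1
  refine ⟨fun l β hβ i => ?_, fun l l' hl β hβ β' hβ' i j hij q hq hqT hsq => ?_,
    fun s α b hα hs hb => ?_⟩
  · rw [mem_pre ψ hψ] at hβ
    rw [order_sub ψ hψ _ (hc l _ hβ i)]
    exact Nat.mul_pos (h.1 l _ hβ i) (ord_pos ψ hψ β)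
  · rw [mem_pre ψ hψ] at hβ hβ'
    refine h.2.1 l l' hl _ hβ _ hβ' i j hij q hq hqT ?_
    simp only [order_sub ψ hψ _ (hc l _ hβ _)] at hsq
    refine isSquare_of_mul (Nat.mul_pos (ord_pos ψ hψ β) (ord_pos ψ hψ β')) ?_
    convert hsq using 1
    ring
  · refine h.2.2 s (fun l => Polynomial.aeval (α l) ψ) b
      (fun l hl => (mem_pre ψ hψ _ _).1 (hα l hl)) hs fun l hl => ?_
    have h1 := hb l hl
    have h2 : ∀ j, (order (sub ψ (c (Sum.inr j))) (α l) : ℤ) =
        (order (c (Sum.inr j)) (Polynomial.aeval (α l) ψ) : ℤ) *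
          ((ψ.map (algebraMap K ℂ) -
            Polynomial.C (Polynomial.aeval (α l) ψ)).rootMultiplicity (α l) : ℕ) := by
      intro j
      rw [order_sub ψ hψ _ (hc l _ ((mem_pre ψ hψ _ _).1 (hα l hl)) _)]
      push_cast
      rfl
    simp only [h2, ← mul_assoc] at h1
    rw [← Finset.sum_mul, mul_eq_zero] at h1
    rcases h1 with h1 | h1
    · exact h1
    · have := ord_pos ψ hψ (α l)
      exact absurd h1 (by exact_mod_cast this.ne')

end Pool.Agent.R424.MX
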