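import Pool.Agent.R424.MX.Pull
import Pool.Agent.R424.MX.Hom

/-!
Pull-backs of one-parameter families of subsets of `Y(1)^n × G_m^k` by a rational function (helper
file for `MP_defd1c_ag.MixedOrbits`).
-/

set_option autoImplicit false

namespace Pool.Agent.R424.MX

open MvPolynomial
open Pool.Agent.Y152.RP.FamM Pool.Agent.R424.SO

variable {K : Subfield ℂ}

/-- the value of the rational function `P / Q` -/
noncomputable def ratl (P Q : Polynomial K) (s : ℂ) : ℂ :=
  Polynomial.aeval s P / Polynomial.aeval s Q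

theorem evalAt_hm (P Q : Polynomial K) (s : ℂ) {e : ℕ} {c : Polynomial K}
    (hc : c.natDegree ≤ e) (hQ : Polynomial.aeval s Q ≠ 0) :
    evalAt K s (hm P Q e c) = Polynomial.aeval s Q ^ e * evalAt K (ratl P Q s) c :=
  eval_hm P Q (algebraMap K ℂ) s hc hQ

/-- homogenization of the coefficients -/
noncomputable def hmv (P Q : Polynomial K) (e : ℕ) {N : ℕ}
    (G : MvPolynomial (Fin (N + 1)) (Polynomial K)) : MvPolynomial (Fin (N + 1)) (Polynomial K) :=
  ∑ u ∈ G.support, monomial u (hm P Q e (G.coeff u))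

theorem eval_hmv (P Q : Polynomial K) (s : ℂ) {e N : ℕ}
    (G : MvPolynomial (Fin (N + 1)) (Polynomial K)) (hG : ∀ u, (G.coeff u).natDegree ≤ e)
    (hQ : Polynomial.aeval s Q ≠ 0) (y : Fin (N + 1) → ℂ) :
    eval₂ (evalAt K s) y (hmv P Q e G) =
      Polynomial.aeval s Q ^ e * eval₂ (evalAt K (ratl P Q s)) y G := by
  unfold hmv
  rw [eval₂_sum, eval₂_eq (evalAt K (ratl P Q s)) y G, Finset.mul_sum]
  refine Finset.sum_congr rfl fun u _ => ?_
  rw [eval₂_monomial, evalAt_hm P Q s (hG u) hQ, mul_assoc]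
  rfl

theorem hom_hmv (P Q : Polynomial K) (e : ℕ) {N : ℕ}
    {G : MvPolynomial (Fin (N + 1)) (Polynomial K)} {d : ℕ} (hG : G.IsHomogeneous d) :
    (hmv P Q e G).IsHomogeneous d := by
  unfold hmv
  refine MvPolynomial.IsHomogeneous.sum _ _ _ fun u hu => ?_
  refine isHomogeneous_monomial _ ?_
  by_contra h
  exact mem_support_iff.1 hu (hG.coeff_eq_zero h)

theorem hom_C_mul {N : ℕ} (a : Polynomial K) {G : MvPolynomial (Fin (N + 1)) (Polynomial K)}
    {d : ℕ} (hG : G.IsHomogeneous d) : (MvPolynomial.C a * G).IsHomogeneous d := by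
  have h := (isHomogeneous_C (Fin (N + 1)) a).mul hG
  rwa [zero_add] at h

theorem onB_hmv (P Q : Polynomial K) (s : ℂ) {e N : ℕ} {κ : Type}
    (G : κ → MvPolynomial (Fin (N + 1)) (Polynomial K))
    (hG : ∀ k u, ((G k).coeff u).natDegree ≤ e) (hQ : Polynomial.aeval s Q ≠ 0)
    (y : Fin (N + 1) → ℂ) :
    OnB s (fun k => hmv P Q e (G k)) y ↔ OnB (ratl P Q s) G y := by
  unfold OnB
  refine and_congr_right fun _ => forall_congr' fun k => ?_
  rw [eval_hmv P Q s (G k) (hG k) hQ, mul_eq_zero, or_iff_right (pow_ne_zero _ hQ)]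

theorem scaledImage_hmv (P Q : Polynomial K) (s : ℂ) {e N n k₀ : ℕ} {κ : Type}
    (G : κ → MvPolynomial (Fin (N + 1)) (Polynomial K))
    (A B : Fin n ⊕ Fin k₀ → MvPolynomial (Fin (N + 1)) (Polynomial K))
    (R : Fin n → Polynomial (Polynomial K)) (c : Fin n ⊕ Fin k₀ → Polynomial K)
    (hG : ∀ k u, ((G k).coeff u).natDegree ≤ e) (hA : ∀ i u, ((A i).coeff u).natDegree ≤ e)
    (hB : ∀ i u, ((B i).coeff u).natDegree ≤ e) (hc : ∀ i, (c i).natDegree ≤ e)
    (hQ : Polynomial.aeval s Q ≠ 0) :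
    scaledImage s (fun k => hmv P Q e (G k)) (fun i => MvPolynomial.C (Q ^ e) * hmv P Q e (A i))
      (fun i => hmv P Q e (B i)) R (fun i => hm P Q e (c i)) =
        scaledImage (ratl P Q s) G A B R c := by
  ext x
  unfold scaledImage
  have hQe : (Polynomial.aeval s Q ^ e : ℂ) ≠ 0 := pow_ne_zero _ hQ
  have hC : ∀ i (y : Fin (N + 1) → ℂ),
      eval₂ (evalAt K s) y (MvPolynomial.C (Q ^ e) * hmv P Q e (A i)) =
        Polynomial.aeval s Q ^ e *
          (Polynomial.aeval s Q ^ e * eval₂ (evalAt K (ratl P Q s)) y (A i)) := by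
    intro i y
    rw [eval₂_mul, eval₂_C, eval_hmv P Q s (A i) (hA i) hQ]
    congr 1
    simp [evalAt]
  have hkey : ∀ i (y : Fin (N + 1) → ℂ) (z : ℂ),
      evalAt K s (hm P Q e (c i)) * eval₂ (evalAt K s) y (hmv P Q e (B i)) * z =
        eval₂ (evalAt K s) y (MvPolynomial.C (Q ^ e) * hmv P Q e (A i)) ↔
      evalAt K (ratl P Q s) (c i) * eval₂ (evalAt K (ratl P Q s)) y (B i) * z =
        eval₂ (evalAt K (ratl P Q s)) y (A i) := by
    intro i y z
    rw [hC, evalAt_hm P Q s (hc i) hQ, eval_hmv P Q s (B i) (hB i) hQ]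
    constructor
    · intro h
      have h1 : (Polynomial.aeval s Q ^ e * Polynomial.aeval s Q ^ e : ℂ) *
          (evalAt K (ratl P Q s) (c i) * eval₂ (evalAt K (ratl P Q s)) y (B i) * z) =
          (Polynomial.aeval s Q ^ e * Polynomial.aeval s Q ^ e) *
            eval₂ (evalAt K (ratl P Q s)) y (A i) := by
        rw [mul_assoc (Polynomial.aeval s Q ^ e : ℂ) _ (eval₂ _ _ _), ← h]
        ring
      exact mul_left_cancel₀ (mul_ne_zero hQe hQe) h1
    · intro h
      rw [← h]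
      ring
  simp only [onB_hmv P Q s G hG hQ, hkey]

theorem pos_hmv (P Q : Polynomial K) (s : ℂ) {e N n k₀ m : ℕ} {κ : Type}
    (G : κ → MvPolynomial (Fin (N + 1)) (Polynomial K))
    (A B : Fin n ⊕ Fin k₀ → MvPolynomial (Fin (N + 1)) (Polynomial K))
    (hG : ∀ k u, ((G k).coeff u).natDegree ≤ e) (hA : ∀ i u, ((A i).coeff u).natDegree ≤ e)
    (hB : ∀ i u, ((B i).coeff u).natDegree ≤ e) (hQ : Polynomial.aeval s Q ≠ 0)
    (h : InGeneralPosition (ratl P Q s) m G A B) :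
    InGeneralPosition s m (fun k => hmv P Q e (G k))
      (fun i => MvPolynomial.C (Q ^ e) * hmv P Q e (A i)) (fun i => hmv P Q e (B i)) := by
  intro I hI y hy
  rw [onB_hmv P Q s G hG hQ] at hy
  obtain ⟨i, hi, h1⟩ := h I hI y hy
  refine ⟨i, hi, ?_⟩
  have hQe : (Polynomial.aeval s Q ^ e : ℂ) ≠ 0 := pow_ne_zero _ hQ
  have hC : evalAt K s (Q ^ e) = Polynomial.aeval s Q ^ e := by
    simp [evalAt]
  rw [eval₂_mul, eval₂_C, eval_hmv P Q s (A i) (hA i) hQ, eval_hmv P Q s (B i) (hB i) hQ, hC]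
  have h2 : eval₂ (evalAt K (ratl P Q s)) y (A i) ≠ 0 := left_ne_zero_of_mul h1
  have h3 : eval₂ (evalAt K (ratl P Q s)) y (B i) ≠ 0 := right_ne_zero_of_mul h1
  exact mul_ne_zero (mul_ne_zero hQe (mul_ne_zero hQe h2)) (mul_ne_zero hQe h3)

/-- `P / Q` is not constant -/
def NonConst (P Q : Polynomial K) : Prop :=
  ∀ α : ℂ, P.map (algebraMap K ℂ) - Polynomial.C α * Q.map (algebraMap K ℂ) ≠ 0

/-- the preimage of a finite set -/
noncomputable def preR (P Q : Polynomial K) (D : Finset ℂ) : Finset ℂ := by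
  classical
  exact (D.biUnion fun α => (P.map (algebraMap K ℂ) -
    Polynomial.C α * Q.map (algebraMap K ℂ)).roots.toFinset).filter
      fun β => Polynomial.aeval β Q ≠ 0

theorem mem_preR {P Q : Polynomial K} (hPQ : NonConst P Q) (D : Finset ℂ) (β : ℂ) :
    β ∈ preR P Q D ↔ Polynomial.aeval β Q ≠ 0 ∧ ratl P Q β ∈ D := by
  classical
  unfold preR
  simp only [Finset.mem_filter, Finset.mem_biUnion, Multiset.mem_toFinset,
    Polynomial.mem_roots (hPQ _), Polynomial.IsRoot, Polynomial.eval_sub, Polynomial.eval_mul,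
    Polynomial.eval_C, Polynomial.eval_map_algebraMap, sub_eq_zero]
  constructor
  · rintro ⟨⟨α, hα, h⟩, hQ⟩
    refine ⟨hQ, ?_⟩
    unfold ratl
    rw [h, mul_div_assoc, div_self hQ, mul_one]
    exact hα
  · rintro ⟨hQ, h⟩
    refine ⟨⟨_, h, ?_⟩, hQ⟩
    unfold ratl
    rw [div_mul_cancel₀ _ hQ]

/-- the ramification index -/
noncomputable def ram (P Q : Polynomial K) (β : ℂ) : ℕ :=
  (P.map (algebraMap K ℂ) -
    Polynomial.C (ratl P Q β) * Q.map (algebraMap K ℂ)).rootMultiplicity β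

theorem ram_pos {P Q : Polynomial K} (hPQ : NonConst P Q) {β : ℂ}
    (hQ : Polynomial.aeval β Q ≠ 0) : 0 < ram P Q β := by
  unfold ram
  rw [Polynomial.rootMultiplicity_pos (hPQ _), Polynomial.IsRoot, Polynomial.eval_sub,
    Polynomial.eval_mul, Polynomial.eval_C, Polynomial.eval_map_algebraMap,
    Polynomial.eval_map_algebraMap]
  unfold ratl
  rw [div_mul_cancel₀ _ hQ, sub_self]

theorem order_hm {P Q : Polynomial K} (hPQ : NonConst P Q) {e : ℕ} {c : Polynomial K}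
    (hc : c ≠ 0) (he : c.natDegree ≤ e) {β : ℂ} (hQ : Polynomial.aeval β Q ≠ 0) :
    order (hm P Q e c) β = order c (ratl P Q β) * ram P Q β := by
  unfold order ram
  have h2 : c.map (algebraMap K ℂ) ≠ 0 :=
    (Polynomial.map_ne_zero_iff (algebraMap K ℂ).injective).2 hc
  have h3 : (P.map (algebraMap K ℂ)).eval β / (Q.map (algebraMap K ℂ)).eval β = ratl P Q β := by
    rw [Polynomial.eval_map_algebraMap, Polynomial.eval_map_algebraMap]
    rfl
  have h4 := rootMultiplicity_hm (P := P.map (algebraMap K ℂ)) (Q := Q.map (algebraMap K ℂ))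
    (e := e) (β := β) h2 (by rw [Polynomial.natDegree_map]; exact he)
    (by rw [Polynomial.eval_map_algebraMap]; exact hQ) (by rw [h3]; exact hPQ _)
  rw [h3] at h4
  rw [hm_map]
  exact h4

theorem ind_hm {P Q : Polynomial K} (hPQ : NonConst P Q) {e n k₀ M : ℕ} (T : ℕ)
    (c : Fin n ⊕ Fin k₀ → Polynomial K) (he : ∀ i, (c i).natDegree ≤ e) (D : Fin M → Finset ℂ)
    (h : IndependentOrders T c D) :
    IndependentOrders T (fun i => hm P Q e (c i)) (fun l => preR P Q (D l)) := by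
  have hc : ∀ l, ∀ α ∈ D l, ∀ i, c i ≠ 0 := by
    intro l α hα i h0
    have h1 := h.1 l α hα i
    unfold order at h1
    rw [h0, Polynomial.map_zero, Polynomial.rootMultiplicity_zero] at h1
    exact lt_irrefl _ h1
  refine ⟨fun l β hβ i => ?_, fun l l' hl β hβ β' hβ' i j hij q hq hqT hsq => ?_,
    fun s α b hα hs hb => ?_⟩
  · rw [mem_preR hPQ] at hβ
    rw [order_hm hPQ (hc l _ hβ.2 i) (he i) hβ.1]
    exact Nat.mul_pos (h.1 l _ hβ.2 i) (ram_pos hPQ hβ.1)
  · rw [mem_preR hPQ] at hβ hβ'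
    refine h.2.1 l l' hl _ hβ.2 _ hβ'.2 i j hij q hq hqT ?_
    rw [order_hm hPQ (hc l _ hβ.2 _) (he _) hβ.1, order_hm hPQ (hc l _ hβ.2 _) (he _) hβ.1,
      order_hm hPQ (hc l' _ hβ'.2 _) (he _) hβ'.1,
      order_hm hPQ (hc l' _ hβ'.2 _) (he _) hβ'.1] at hsq
    refine isSquare_of_mul (Nat.mul_pos (ram_pos hPQ hβ.1) (ram_pos hPQ hβ'.1)) ?_
    convert hsq using 1
    ring
  · refine h.2.2 s (fun l => ratl P Q (α l)) b
      (fun l hl => ((mem_preR hPQ _ _).1 (hα l hl)).2) hs fun l hl => ?_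
    have h0 := (mem_preR hPQ _ _).1 (hα l hl)
    have h1 := hb l hl
    have h2 : ∀ j, (order (hm P Q e (c (Sum.inr j))) (α l) : ℤ) =
        (order (c (Sum.inr j)) (ratl P Q (α l)) : ℤ) * (ram P Q (α l) : ℕ) := by
      intro j
      rw [order_hm hPQ (hc l _ h0.2 _) (he _) h0.1]
      push_cast
      rfl
    simp only [h2, ← mul_assoc] at h1
    rw [← Finset.sum_mul, mul_eq_zero] at h1
    rcases h1 with h1 | h1
    · exact h1
    · have := ram_pos hPQ h0.1
      exact absurd h1 (by exact_mod_cast this.ne')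

theorem alg_preR {P Q : Polynomial K} (hPQ : NonConst P Q) {β : ℂ}
    (hQ : Polynomial.aeval β Q ≠ 0) (h : IsAlgebraic K (ratl P Q β)) : IsAlgebraic K β := by
  let k := algebraicClosure K ℂ
  let α : k := ⟨ratl P Q β, mem_algebraicClosure_iff.2 h⟩
  have hcomp : (algebraMap k ℂ).comp (algebraMap K k) = algebraMap K ℂ := rfl
  have h1 : IsAlgebraic k β := by
    refine ⟨P.map (algebraMap K k) - Polynomial.C α * Q.map (algebraMap K k), ?_, ?_⟩
    · intro h0
      have h2 := congrArg (Polynomial.map (algebraMap k ℂ)) h0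
      rw [Polynomial.map_sub, Polynomial.map_mul, Polynomial.map_C, Polynomial.map_map,
        Polynomial.map_map, hcomp, Polynomial.map_zero] at h2
      exact hPQ _ h2
    · rw [map_sub, map_mul, Polynomial.aeval_C, Polynomial.aeval_map_algebraMap,
        Polynomial.aeval_map_algebraMap]
      show Polynomial.aeval β P - ratl P Q β * Polynomial.aeval β Q = 0
      unfold ratl
      rw [div_mul_cancel₀ _ hQ, sub_self]
  have hcl : IsAlgClosure K k := inferInstance
  have : Algebra.IsAlgebraic K k := hcl.isAlgebraic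
  exact h1.restrictScalars K

/-- a common bound for the degrees of the coefficients -/
theorem exists_bound {N n k₀ : ℕ} {κ : Type} [Finite κ]
    (G : κ → MvPolynomial (Fin (N + 1)) (Polynomial K))
    (A B : Fin n ⊕ Fin k₀ → MvPolynomial (Fin (N + 1)) (Polynomial K))
    (c : Fin n ⊕ Fin k₀ → Polynomial K) : ∃ e : ℕ,
      (∀ k u, ((G k).coeff u).natDegree ≤ e) ∧ (∀ i u, ((A i).coeff u).natDegree ≤ e) ∧
      (∀ i u, ((B i).coeff u).natDegree ≤ e) ∧ ∀ i, (c i).natDegree ≤ e := by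
  have h0 : ∀ G : MvPolynomial (Fin (N + 1)) (Polynomial K), ∃ e : ℕ,
      ∀ u, (G.coeff u).natDegree ≤ e := by
    intro G
    refine ⟨G.support.sup fun u => (G.coeff u).natDegree, fun u => ?_⟩
    by_cases hu : u ∈ G.support
    · exact Finset.le_sup (f := fun u => (G.coeff u).natDegree) hu
    · rw [notMem_support_iff.1 hu, Polynomial.natDegree_zero]
      exact Nat.zero_le _
  choose f hf using h0
  obtain ⟨e1, h1⟩ := Finite.exists_le fun k => f (G k)
  obtain ⟨e2, h2⟩ := Finite.exists_le fun i => f (A i)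
  obtain ⟨e3, h3⟩ := Finite.exists_le fun i => f (B i)
  obtain ⟨e4, h4⟩ := Finite.exists_le fun i => (c i).natDegree
  refine ⟨e1 + e2 + e3 + e4, fun k u => ?_, fun i u => ?_, fun i u => ?_, fun i => ?_⟩
  · have := hf (G k) u
    have := h1 k
    omega
  · have := hf (A i) u
    have := h2 i
    omega
  · have := hf (B i) u
    have := h3 i
    omega
  · have := h4 i
    omega

/-- **The theorem for the pull-back by a rational function.** -/
theorem pulled (K : Subfield ℂ) [Countable K] (κ : Type) [Finite κ] (N n k₀ m M T : ℕ)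
    (G : κ → MvPolynomial (Fin (N + 1)) (Polynomial K)) (hG : ∀ k, ∃ e, (G k).IsHomogeneous e)
    (A B : Fin n ⊕ Fin k₀ → MvPolynomial (Fin (N + 1)) (Polynomial K)) (δ : Fin n ⊕ Fin k₀ → ℕ)
    (hA : ∀ i, (A i).IsHomogeneous (δ i)) (hB : ∀ i, (B i).IsHomogeneous (δ i))
    (R : Fin n → Polynomial (Polynomial K)) (hR : ∀ i, (R i).Monic)
    (hT : ∀ i u w, ((R i).coeff u).coeff w ≠ 0 → u ≤ T ∧ w ≤ T)
    (c : Fin n ⊕ Fin k₀ → Polynomial K) (D : Fin M → Finset ℂ)
    (hD : ∀ l, ∀ α ∈ D l, IsAlgebraic K α)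
    (hind : IndependentOrders T c D) (hpos : ∀ l, ∀ α ∈ D l, InGeneralPosition α m G A B)
    (Γ : Finset ℂ) (hΓ : ∀ γ ∈ Γ, IsAlgebraic K γ) (F : Finset ℂ)
    (hF : ∀ z ∈ F, IsAlgebraic K z) (P Q : Polynomial K) (hPQ : NonConst P Q) :
    ((∀ I : Finset (Fin M), M ≤ I.card + (n.choose 2 + k₀ * 2 ^ k₀) →
        3 ≤ (I.biUnion fun l => preR P Q (D l)).card) →
      {s : ℂ | s ∈ Subfield.closure (F : Set ℂ) ∧ Polynomial.aeval s Q ≠ 0 ∧
        ¬ NoAtypical (algebraMap (Algebra.adjoin ℤ (Γ : Set ℂ)) ℂ) K m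
          (scaledImage (ratl P Q s) G A B R c)}.Finite) ∧
    ((∀ I : Finset (Fin M), M ≤ I.card + (n.choose 2 + k₀ * 2 ^ k₀) →
        2 ≤ (I.biUnion fun l => preR P Q (D l)).card) →
      {s : ℂ | s ∈ Subring.closure (F : Set ℂ) ∧ Polynomial.aeval s Q ≠ 0 ∧
        ¬ NoAtypical (algebraMap (Algebra.adjoin ℤ (Γ : Set ℂ)) ℂ) K m
          (scaledImage (ratl P Q s) G A B R c)}.Finite) ∧
    ((∀ I : Finset (Fin M), M ≤ I.card + (n.choose 2 + k₀ * 2 ^ k₀) →
        ∃ a ∈ I.biUnion fun l => preR P Q (D l), a ≠ 0) →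
      {s : ℂ | (s ∈ Subring.closure (F : Set ℂ) ∧ s ≠ 0 ∧ s⁻¹ ∈ Subring.closure (F : Set ℂ)) ∧
        Polynomial.aeval s Q ≠ 0 ∧
        ¬ NoAtypical (algebraMap (Algebra.adjoin ℤ (Γ : Set ℂ)) ℂ) K m
          (scaledImage (ratl P Q s) G A B R c)}.Finite) := by
  obtain ⟨e, eG, eA, eB, ec⟩ := exists_bound G A B c
  have key := family K κ N n k₀ m M T
    (fun k => hmv P Q e (G k))
    (fun k => by
      obtain ⟨d, hd⟩ := hG k
      exact ⟨d, hom_hmv P Q e hd⟩)
    (fun i => MvPolynomial.C (Q ^ e) * hmv P Q e (A i)) (fun i => hmv P Q e (B i)) δ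
    (fun i => hom_C_mul _ (hom_hmv P Q e (hA i))) (fun i => hom_hmv P Q e (hB i)) R hR hT
    (fun i => hm P Q e (c i)) (fun l => preR P Q (D l))
    (fun l β hβ => by
      rw [mem_preR hPQ] at hβ
      exact alg_preR hPQ hβ.1 (hD l _ hβ.2))
    (ind_hm hPQ T c ec D hind)
    (fun l β hβ => by
      rw [mem_preR hPQ] at hβ
      exact pos_hmv P Q β G A B eG eA eB hβ.1 (hpos l _ hβ.2))
    Γ hΓ F hF
  obtain ⟨k1, k2, k3⟩ := key
  refine ⟨fun h => (k1 h).subset ?_, fun h => (k2 h).subset ?_, fun h => (k3 h).subset ?_⟩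
  · rintro s ⟨h1, h2, h3⟩
    refine ⟨h1, ?_⟩
    rwa [scaledImage_hmv P Q s G A B R c eG eA eB ec h2]
  · rintro s ⟨h1, h2, h3⟩
    refine ⟨h1, ?_⟩
    rwa [scaledImage_hmv P Q s G A B R c eG eA eB ec h2]
  · rintro s ⟨h1, h2, h3⟩
    refine ⟨h1, ?_⟩
    rwa [scaledImage_hmv P Q s G A B R c eG eA eB ec h2]

end Pool.Agent.R424.MX
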